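import Mathlib
import Pool.Agent.W307.RT.Main4
import Pool.Agent.W307.RT.Tors
import Pool.Agent.Y294.ET.Low8
import Pool.Agent.Y294.ET.Two

/-!
# The ranks of the elliptic curves with torsion group `Z/2 x Z/2` and `Z/2 x Z/4`

All elliptic curves over `ℚ` with torsion group `Z/2 x Z/4`, ordered by height: their number tends to
infinity, the average of `2 ^ rank` over them is bounded, and they form a positive proportion of all
the curves with a subgroup `Z/2 x Z/4`. All elliptic curves over `ℚ` with torsion group `Z/2 x Z/2`,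
ordered by height: they are almost all the curves with full rational 2-torsion, the average of
`4 ^ rank` over them is bounded, and the upper density of the curves of rank at least `r` among them
decays faster than any exponential `A ^ (-r)`.

New here is the passage to the exact torsion groups: if `y² = x (x + a²) (x + b²)` (`a > b ≥ 1`
coprime) has a point of order 8 then `a` and `b` are squares. The mean value theorems are those of
the library (projects RT, SE, FK, DT), and the lemmas on the sparsity of the curves with a subgroup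
`Z/2 x Z/4` or `Z/2 x Z/6` are from `Pool/Agent/Y667/TS/Main.lean`.
-/

set_option autoImplicit false

namespace Pool.Agent.Results.MP_9e6228_nt.ExactTorsion

open Finset Filter Topology

/-- the curve `y² = x³ + A x + B` over `ℚ` -/
def E (A B : ℤ) : WeierstrassCurve ℚ := ⟨0, 0, 0, (A : ℚ), (B : ℚ)⟩

/-- the Mordell-Weil rank -/
noncomputable def rank (c : ℤ × ℤ) : ℕ := Module.finrank ℤ (E c.1 c.2).toAffine.Point

open Classical in
/-- The pairs `(A, B)` of integers such that `4 A³ + 27 B² ≠ 0`, there is no prime `p` with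
`p⁴ ∣ A` and `p⁶ ∣ B`, the height `max (4 |A|³) (27 B²)` is at most `H`, and `Z/2 x Z/m` embeds in
the group of the rational points of `y² = x³ + A x + B`. (The bounds `|A|, |B| ≤ H` follow from the
bound of the height. Every elliptic curve over `ℚ` is isomorphic to `E A B` for exactly one pair
with the first two properties.) -/
noncomputable def Containing (m H : ℕ) : Finset (ℤ × ℤ) :=
  ((Icc (-(H : ℤ)) H) ×ˢ (Icc (-(H : ℤ)) H)).filter (fun c : ℤ × ℤ =>
    4 * c.1 ^ 3 + 27 * c.2 ^ 2 ≠ 0 ∧ 4 * |c.1| ^ 3 ≤ H ∧ 27 * c.2 ^ 2 ≤ H ∧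
    (∀ p : ℕ, p.Prime → ¬ ((p : ℤ) ^ 4 ∣ c.1 ∧ (p : ℤ) ^ 6 ∣ c.2)) ∧
    ∃ f : ZMod 2 × ZMod m →+ (E c.1 c.2).toAffine.Point, Function.Injective f)

open Classical in
/-- The curves of `Containing 4 H` without a rational point of order 8. By Mazur's theorem these are
the elliptic curves over `ℚ` of height at most `H` with torsion group `Z/2 x Z/4`. -/
noncomputable def F24 (H : ℕ) : Finset (ℤ × ℤ) :=
  (Containing 4 H).filter (fun c => ∀ P : (E c.1 c.2).toAffine.Point, addOrderOf P ≠ 8)

open Classical in
/-- The curves of `Containing 2 H` without a rational point of order 3 or 4. By Mazur's theorem these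
are the elliptic curves over `ℚ` of height at most `H` with torsion group `Z/2 x Z/2`. -/
noncomputable def F22 (H : ℕ) : Finset (ℤ × ℤ) :=
  (Containing 2 H).filter (fun c => ∀ P : (E c.1 c.2).toAffine.Point,
    addOrderOf P ≠ 3 ∧ addOrderOf P ≠ 4)

/-- the upper density of the curves of rank at least `r` among the curves with torsion group
`Z/2 x Z/2` -/
noncomputable def upper22 (r : ℕ) : ℝ :=
  limsup (fun H : ℕ => (((F22 H).filter (fun c => r ≤ rank c)).card : ℝ) / (F22 H).card) atTop

lemma Containing_eq (m H : ℕ) : Containing m H = Pool.Agent.W307.RT.Cv m H := by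
  classical
  unfold Containing Pool.Agent.W307.RT.Cv
  apply filter_congr
  intro c _
  have h : Pool.Agent.W307.RT.HasT m (Pool.Agent.W307.RT.Sh c.1 c.2) ↔
      ∃ f : ZMod 2 × ZMod m →+ (E c.1 c.2).toAffine.Point, Function.Injective f :=
    Pool.Agent.W307.RT.tors_iff
  rw [h]

lemma F24_eq (H : ℕ) : F24 H = Pool.Agent.Y294.ET.G8 H := by
  classical
  unfold F24 Pool.Agent.Y294.ET.G8
  rw [Containing_eq]
  rfl

lemma F22_eq (H : ℕ) : F22 H = Pool.Agent.Y294.ET.G34 H := by
  classical
  unfold F22 Pool.Agent.Y294.ET.G34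
  rw [Containing_eq]
  rfl

/-- **Theorem.** For `T = Z/2 x Z/4`: the number of the elliptic curves over `ℚ` of height at most `H`
with torsion group `T` tends to infinity with `H`; the average of `2 ^ rank` over them is bounded; and
they form a positive proportion of the curves of height at most `H` with a subgroup `T`.
For `T = Z/2 x Z/2`: the number of the elliptic curves over `ℚ` of height at most `H` with torsion
group `T` tends to infinity with `H`; their proportion among the curves of height at most `H` with a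
subgroup `T` tends to one; the average of `4 ^ rank` over them is bounded; and for every real number
`A` the upper density of the curves of rank at least `r` among them times `A ^ r` tends to zero for
`r → ∞`. -/
theorem result :
    (Tendsto (fun H : ℕ => (F24 H).card) atTop atTop ∧
    ∃ C : ℝ, ∀ H : ℕ,
      ∑ c ∈ F24 H, (2 : ℝ) ^ rank c ≤ C * (F24 H).card ∧
      ((F24 H).Nonempty → ((Containing 4 H).card : ℝ) ≤ C * (F24 H).card)) ∧
    (Tendsto (fun H : ℕ => (F22 H).card) atTop atTop ∧
    Tendsto (fun H : ℕ => ((F22 H).card : ℝ) / (Containing 2 H).card) atTop (𝓝 1) ∧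
    (∃ C : ℝ, ∀ H : ℕ, ∑ c ∈ F22 H, (4 : ℝ) ^ rank c ≤ C * (F22 H).card) ∧
    ∀ A : ℝ, Tendsto (fun r : ℕ => A ^ r * upper22 r) atTop (𝓝 0)) := by
  unfold upper22
  simp only [F24_eq, F22_eq, Containing_eq]
  refine ⟨⟨?_, Pool.Agent.Y294.ET.final_sub (by norm_num)
    (Pool.Agent.W605.RT.par4_of Pool.Agent.W261.RT.iso) _ Pool.Agent.Y294.ET.G8_sub
    Pool.Agent.Y294.ET.low8 Pool.Agent.W307.RT.box4⟩, Pool.Agent.Y294.ET.tend34,
    Pool.Agent.Y294.ET.ratio34, Pool.Agent.Y294.ET.avg34, Pool.Agent.Y294.ET.tail34⟩
  obtain ⟨c, C, T0, hc, h⟩ := Pool.Agent.Y294.ET.low8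
  rw [tendsto_atTop_atTop]
  intro b
  obtain ⟨n, hn⟩ := exists_nat_gt ((b : ℝ) / c)
  set T := max (max n T0) 1 with hT
  have h1 : (b : ℝ) ≤ c * (T : ℝ) ^ 2 := by
    rw [div_lt_iff₀ hc] at hn
    have hT1 : (1 : ℝ) ≤ T := by exact_mod_cast (le_max_right (max n T0) 1)
    have hTn : (n : ℝ) ≤ T := by
      exact_mod_cast (le_max_left n T0).trans (le_max_left (max n T0) 1)
    have h2 : (T : ℝ) ≤ (T : ℝ) ^ 2 := by nlinarith
    nlinarith
  refine ⟨C * T ^ 12, fun H hH => ?_⟩
  have h3 := h T H ((le_max_right n T0).trans (le_max_left _ 1)) hH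
  exact_mod_cast h1.trans h3

end Pool.Agent.Results.MP_9e6228_nt.ExactTorsion
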